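import Pool.Agent.Q120.AD.Large
import Pool.Agent.Q120.MF.Exists

/-!
# Cramér's model with an adversary

An adversary who knows Cramér's random set deletes `m x` integers from it, so as to create in `[x, 2 x]` an
interval without elements which is as long as possible. Almost surely, for all functions `m` at once, the largest
possible length is asymptotic to `Λ (log x)^2` with `Λ - c - c log (Λ / c) = 1` if `m x / log x → c`, and to
`m x * log x` if `m x / log x → ∞`.
-/

set_option autoImplicit false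

namespace Pool.Agent.Results.MP_711652_nt.AdversarialDeletion

open Finset MeasureTheory Filter Pool.Agent.Q120.ET Pool.Agent.Q120.MF Pool.Agent.Q120.AD
open scoped Topology

/-- The largest length of a window `(y, y + h]` in `[x, 2 x]` which the adversary can make free of elements of `S`
by deleting at most `m` integers. -/
noncomputable def worst (S : Set ℕ) (x m : ℕ) : ℕ := sSup {h | Makes S x m h}

theorem makes_zero (S : Set ℕ) (x m : ℕ) : Makes S x m 0 :=
  ⟨∅, by simp, x, le_refl _, by omega, fun n _ => by omega⟩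

theorem bddAbove_makes (S : Set ℕ) (x m : ℕ) : BddAbove {h | Makes S x m h} := by
  refine ⟨x, ?_⟩
  rintro h ⟨D, _, y, h1, h2, _⟩
  omega

theorem le_worst {S : Set ℕ} {x m h : ℕ} (hh : Makes S x m h) : h ≤ worst S x m :=
  le_csSup (bddAbove_makes S x m) hh

theorem makes_worst (S : Set ℕ) (x m : ℕ) : Makes S x m (worst S x m) :=
  Nat.sSup_mem ⟨0, makes_zero S x m⟩ (bddAbove_makes S x m)

/-- The rate function is increasing in the length. -/
theorem rate_lt {a b c : ℝ} (hc : 0 ≤ c) (hca : c < a) (hab : a < b) :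
    a - c - c * Real.log (a / c) < b - c - c * Real.log (b / c) := by
  rcases hc.eq_or_lt with h | h
  · rw [← h]; simp only [zero_mul, sub_zero]; exact hab
  · have ha : 0 < a := by linarith
    have hb : 0 < b := by linarith
    have h1 : Real.log (b / a) ≤ b / a - 1 := Real.log_le_sub_one_of_pos (by positivity)
    have h2 : Real.log (b / a) = Real.log (b / c) - Real.log (a / c) := by
      rw [Real.log_div hb.ne' ha.ne', Real.log_div hb.ne' h.ne', Real.log_div ha.ne' h.ne']
      ring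
    have h3 : b / a - 1 = (b - a) / a := by field_simp
    have h4 : c * Real.log (b / a) < b - a := by
      have h5 : c * Real.log (b / a) ≤ c * ((b - a) / a) := by
        rw [← h3]
        exact mul_le_mul_of_nonneg_left h1 hc
      have h6 : c * ((b - a) / a) < b - a := by
        rw [mul_div_assoc', div_lt_iff₀ ha]
        nlinarith
      linarith
    rw [h2] at h4
    linarith

/-- The rate function is continuous in the number of elements. -/
theorem rate_continuous {a c : ℝ} (hc : 0 ≤ c) (ha : 0 < a) :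
    ContinuousWithinAt (fun t : ℝ => a - t - t * Real.log (a / t)) (Set.Ici 0) c := by
  have h1 : ContinuousWithinAt (fun t : ℝ => a - t - (t * Real.log a - t * Real.log t)) (Set.Ici 0) c := by
    apply Continuous.continuousWithinAt
    have := Real.continuous_mul_log
    fun_prop
  have h2 : ∀ t : ℝ, 0 ≤ t → a - t - t * Real.log (a / t) = a - t - (t * Real.log a - t * Real.log t) := by
    intro t ht
    rcases ht.eq_or_lt with h | h
    · rw [← h]; simp
    · rw [Real.log_div ha.ne' h.ne']; ring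
  exact h1.congr (fun t ht => h2 t ht) (h2 c hc)

variable {Ω : Type*} [MeasurableSpace Ω] {μ : Measure Ω} [IsProbabilityMeasure μ] {A : Ω → Set ℕ}

theorem card_tr_mono {W V : Finset ℕ} (h : W ⊆ V) (ω : Ω) : (tr A W ω).card ≤ (tr A V ω).card := by
  apply card_le_card
  intro n hn
  rw [mem_tr] at hn ⊢
  exact ⟨h hn.1, hn.2⟩

/-- **The largest gap in Cramér's model after the worst deletion of `m x` elements.** -/
theorem result :
    -- Cramér's model exists
    (IsProbabilityMeasure cramerMeasure ∧ IsCramer cramerMeasure cramerSet) ∧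
    ∀ (Ω : Type) [MeasurableSpace Ω] (μ : Measure Ω) [IsProbabilityMeasure μ] (A : Ω → Set ℕ),
      IsCramer μ A → ∀ᵐ ω ∂μ,
        (∀ (m : ℕ → ℕ) (c a : ℝ), 0 ≤ c → c < a → a - c - c * Real.log (a / c) = 1 →
          Tendsto (fun x => (m x : ℝ) / Real.log x) atTop (𝓝 c) →
          Tendsto (fun x => (worst (A ω) x (m x) : ℝ) / Real.log x ^ 2) atTop (𝓝 a)) ∧
        (∀ m : ℕ → ℕ, Tendsto (fun x => (m x : ℝ) / Real.log x) atTop atTop →
          (∀ᶠ x : ℕ in atTop, (m x : ℝ) * Real.log x ≤ x) →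
          Tendsto (fun x => (worst (A ω) x (m x) : ℝ) / (m x * Real.log x)) atTop (𝓝 1)) := by
  refine ⟨⟨inferInstance, isCramer⟩, ?_⟩
  intro Ω _ μ _ A hA
  -- the countable families of events
  have e1 : ∀ᵐ ω ∂μ, ∀ c a : ℚ, 0 < (c : ℝ) → (c : ℝ) < a → 1 < (a : ℝ) - c - c * Real.log (a / c) →
      ∀ᶠ y : ℕ in atTop,
        ¬ (tr A (Finset.Ioc y (y + ⌊(a : ℝ) * Real.log y ^ 2⌋₊)) ω).card ≤ ⌊(c : ℝ) * Real.log y⌋₊ := by
    refine ae_all_iff.2 (fun c => ae_all_iff.2 (fun a => ?_))
    by_cases h : 0 < (c : ℝ) ∧ (c : ℝ) < a ∧ 1 < (a : ℝ) - c - c * Real.log (a / c)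
    · filter_upwards [window_many hA h.1 h.2.1 h.2.2] with ω hω _ _ _
      exact hω
    · exact ae_of_all _ (fun ω h1 h2 h3 => absurd ⟨h1, h2, h3⟩ h)
  have e2 : ∀ᵐ ω ∂μ, ∀ c a : ℚ, 0 ≤ (c : ℝ) → (c : ℝ) < a → (a : ℝ) - c - c * Real.log (a / c) < 1 →
      ∀ᶠ x : ℕ in atTop, ∃ y, x ≤ y ∧ y + ⌊(a : ℝ) * Real.log x ^ 2⌋₊ ≤ 2 * x ∧
        (tr A (Finset.Ioc y (y + ⌊(a : ℝ) * Real.log x ^ 2⌋₊)) ω).card ≤ ⌊(c : ℝ) * Real.log x⌋₊ := by
    refine ae_all_iff.2 (fun c => ae_all_iff.2 (fun a => ?_))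
    by_cases h : 0 ≤ (c : ℝ) ∧ (c : ℝ) < a ∧ (a : ℝ) - c - c * Real.log (a / c) < 1
    · filter_upwards [window_few hA h.1 h.2.1 h.2.2] with ω hω _ _ _
      exact hω
    · exact ae_of_all _ (fun ω h1 h2 h3 => absurd ⟨h1, h2, h3⟩ h)
  have e3 : ∀ᵐ ω ∂μ, ∀ ε : ℚ, 0 < (ε : ℝ) → ∃ K : ℝ, ∀ᶠ x : ℕ in atTop, ∀ m : ℕ, K * Real.log x ≤ m → m ≤ x →
      ∀ y, x ≤ y → ∀ h : ℕ, (1 + (ε : ℝ)) * (m * Real.log x) ≤ h → y + h ≤ 2 * x →
        ¬ (tr A (Finset.Ioc y (y + h)) ω).card ≤ m := by
    refine ae_all_iff.2 (fun ε => ?_)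
    by_cases h : 0 < (ε : ℝ)
    · obtain ⟨K, hK⟩ := large_many hA h
      filter_upwards [hK] with ω hω _
      exact ⟨K, hω⟩
    · exact ae_of_all _ (fun ω h1 => absurd h1 h)
  have e4 : ∀ᵐ ω ∂μ, ∀ ε : ℚ, 0 < (ε : ℝ) → (ε : ℝ) < 1 → ∃ K : ℝ, ∀ᶠ x : ℕ in atTop, ∀ m : ℕ,
      K * Real.log x ≤ m → m ≤ x →
      (tr A (Finset.Ioc x (x + ⌊(1 - (ε : ℝ)) * (m * Real.log x)⌋₊)) ω).card ≤ m := by
    refine ae_all_iff.2 (fun ε => ?_)
    by_cases h : 0 < (ε : ℝ) ∧ (ε : ℝ) < 1
    · obtain ⟨K, hK⟩ := large_few hA h.1 h.2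
      filter_upwards [hK] with ω hω _ _
      exact ⟨K, hω⟩
    · exact ae_of_all _ (fun ω h1 h2 => absurd ⟨h1, h2⟩ h)
  filter_upwards [e1, e2, e3, e4] with ω h1 h2 h3 h4
  constructor
  · intro m c a hc hca hrate hm
    have ha0 : 0 < a := by linarith
    rw [tendsto_order]
    constructor
    · -- lower bound
      intro a0 ha0'
      obtain ⟨a', ha'1, ha'2⟩ := exists_rat_btwn (show max a0 c < a from max_lt ha0' hca)
      have ha'c : c < a' := lt_of_le_of_lt (le_max_right _ _) ha'1
      have ha'a0 : a0 < a' := lt_of_le_of_lt (le_max_left _ _) ha'1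
      have hr1 := rate_lt hc ha'c ha'2
      rw [hrate] at hr1
      -- the rational number below `c`
      obtain ⟨c', hc'0, hc'r, hc'a, hc'm⟩ : ∃ c' : ℚ, 0 ≤ (c' : ℝ) ∧
          (a' : ℝ) - c' - c' * Real.log (a' / c') < 1 ∧ (c' : ℝ) < a' ∧
          ∀ᶠ x : ℕ in atTop, ⌊(c' : ℝ) * Real.log x⌋₊ ≤ m x := by
        rcases hc.eq_or_lt with h0 | h0
        · refine ⟨0, by simp, ?_, ?_, ?_⟩
          · rw [← h0] at hr1
            simpa using hr1
          · rw [Rat.cast_zero]; linarith
          · refine Eventually.of_forall (fun x => ?_)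
            simp
        · have hcont := (rate_continuous hc (show (0 : ℝ) < a' by linarith))
          have hev : ∀ᶠ t : ℝ in 𝓝[Set.Ici 0] c, (a' : ℝ) - t - t * Real.log (a' / t) < 1 :=
            hcont.tendsto.eventually_lt_const hr1
          rw [eventually_nhdsWithin_iff, Metric.eventually_nhds_iff] at hev
          obtain ⟨η, hη0, hη⟩ := hev
          obtain ⟨c', hc'1, hc'2⟩ := exists_rat_btwn (show max (c - η) 0 < c from max_lt (by linarith) h0)
          have hc'3 : c - η < c' := lt_of_le_of_lt (le_max_left _ _) hc'1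
          have hc'4 : (0 : ℝ) < c' := lt_of_le_of_lt (le_max_right _ _) hc'1
          refine ⟨c', hc'4.le, ?_, by linarith, ?_⟩
          · refine hη ?_ hc'4.le
            rw [Real.dist_eq, abs_lt]
            constructor <;> linarith
          · filter_upwards [hm.eventually_const_lt hc'2, eventually_ge_atTop 3] with x hx hx3
            have hlog := one_lt_log hx3
            rw [lt_div_iff₀ (by linarith)] at hx
            have h5 : (⌊(c' : ℝ) * Real.log x⌋₊ : ℝ) ≤ (c' : ℝ) * Real.log x := Nat.floor_le (by positivity)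
            have h6 : (⌊(c' : ℝ) * Real.log x⌋₊ : ℝ) < m x := by linarith
            exact_mod_cast h6.le
      have hfl := (tendsto_floor (show (0 : ℝ) ≤ a' by linarith) hl2).eventually_const_lt ha'a0
      filter_upwards [h2 c' a' hc'0 hc'a hc'r, hc'm, hfl, eventually_ge_atTop 3] with x hx1 hx2 hx3 hx4
      have hlog := one_lt_log hx4
      obtain ⟨y, hy1, hy2, hy3⟩ := hx1
      have h5 := le_worst (makes_iff.2 ⟨y, hy1, hy2, hy3.trans hx2⟩)
      refine lt_of_lt_of_le hx3 ?_
      apply div_le_div_of_nonneg_right _ (by positivity)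
      exact_mod_cast h5
    · -- upper bound
      intro b hb
      obtain ⟨b', hb'1, hb'2⟩ := exists_rat_btwn hb
      have hr1 := rate_lt hc hca hb'1
      rw [hrate] at hr1
      obtain ⟨c', hc'0, hc'r, hc'b, hc'm⟩ : ∃ c' : ℚ, 0 < (c' : ℝ) ∧
          1 < (b' : ℝ) - c' - c' * Real.log (b' / c') ∧ (c' : ℝ) < b' ∧
          ∀ᶠ x : ℕ in atTop, (m x : ℝ) ≤ (c' : ℝ) * Real.log x := by
        have hcont := (rate_continuous hc (show (0 : ℝ) < b' by linarith))
        have hev : ∀ᶠ t : ℝ in 𝓝[Set.Ici 0] c, 1 < (b' : ℝ) - t - t * Real.log (b' / t) :=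
          hcont.tendsto.eventually_const_lt hr1
        rw [eventually_nhdsWithin_iff, Metric.eventually_nhds_iff] at hev
        obtain ⟨η, hη0, hη⟩ := hev
        obtain ⟨c', hc'1, hc'2⟩ := exists_rat_btwn (show c < min (c + η) b' from
          lt_min (by linarith) (by linarith))
        have hc'3 : (c' : ℝ) < c + η := lt_of_lt_of_le hc'2 (min_le_left _ _)
        have hc'4 : (c' : ℝ) < b' := lt_of_lt_of_le hc'2 (min_le_right _ _)
        refine ⟨c', by linarith, ?_, hc'4, ?_⟩
        · refine hη ?_ (show (0 : ℝ) ≤ c' by linarith)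
          rw [Real.dist_eq, abs_lt]
          constructor <;> linarith
        · filter_upwards [hm.eventually_lt_const hc'1, eventually_ge_atTop 3] with x hx hx3
          have hlog := one_lt_log hx3
          rw [div_lt_iff₀ (by linarith)] at hx
          exact hx.le
      obtain ⟨y0, hy0⟩ := eventually_atTop.1 (h1 c' b' hc'0 hc'b hc'r)
      have hT : Tendsto (fun x : ℕ => (b' : ℝ) * (Real.log (2 * x) / Real.log x) ^ 2) atTop
          (𝓝 ((b' : ℝ) * 1 ^ 2)) := ((tendsto_log_mul two_pos).pow 2).const_mul _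
      have hT2 := hT.eventually_lt_const (show (b' : ℝ) * 1 ^ 2 < b by linarith)
      filter_upwards [hc'm, hT2, eventually_ge_atTop 3, eventually_ge_atTop y0] with x hx1 hx2 hx3 hx4
      have hlog := one_lt_log hx3
      have hx0 : (0 : ℝ) < x := by
        have : 0 < x := by omega
        exact_mod_cast this
      by_contra hcon
      rw [not_lt, le_div_iff₀ (by positivity)] at hcon
      obtain ⟨y, hy1, hy2, hy3⟩ := makes_iff.1 (makes_worst (A ω) x (m x))
      apply hy0 y (by omega)
      have hlogy : Real.log x ≤ Real.log y := Real.log_le_log hx0 (by exact_mod_cast hy1)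
      have hy2' : (y : ℝ) ≤ 2 * x := by
        have : y ≤ 2 * x := by omega
        exact_mod_cast this
      have hlogy2 : Real.log y ≤ Real.log (2 * x) := Real.log_le_log (by
        have : (x : ℝ) ≤ y := by exact_mod_cast hy1
        linarith) hy2'
      have hb'0 : (0 : ℝ) < b' := by linarith
      have h5 : ⌊(b' : ℝ) * Real.log y ^ 2⌋₊ ≤ worst (A ω) x (m x) := by
        have h6 : (⌊(b' : ℝ) * Real.log y ^ 2⌋₊ : ℝ) ≤ (b' : ℝ) * Real.log y ^ 2 := Nat.floor_le (by positivity)
        have h7 : (b' : ℝ) * Real.log y ^ 2 ≤ (b' : ℝ) * Real.log (2 * x) ^ 2 := by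
          apply mul_le_mul_of_nonneg_left _ hb'0.le
          apply pow_le_pow_left₀ (by linarith) hlogy2
        have h8 : (b' : ℝ) * Real.log (2 * x) ^ 2 < b * Real.log x ^ 2 := by
          have h9 : (b' : ℝ) * (Real.log (2 * x) / Real.log x) ^ 2 * Real.log x ^ 2 =
              (b' : ℝ) * Real.log (2 * x) ^ 2 := by
            rw [div_pow]
            field_simp
          rw [← h9]
          exact mul_lt_mul_of_pos_right hx2 (by positivity)
        have h10 : (⌊(b' : ℝ) * Real.log y ^ 2⌋₊ : ℝ) ≤ (worst (A ω) x (m x) : ℝ) := by linarith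
        exact_mod_cast h10
      refine (card_tr_mono (Finset.Ioc_subset_Ioc_right (by omega)) ω).trans (hy3.trans ?_)
      apply Nat.le_floor
      calc (m x : ℝ) ≤ (c' : ℝ) * Real.log x := hx1
        _ ≤ (c' : ℝ) * Real.log y := mul_le_mul_of_nonneg_left hlogy hc'0.le
  · intro m hm hmx
    have hmle : ∀ᶠ x : ℕ in atTop, m x ≤ x := by
      filter_upwards [hmx, eventually_ge_atTop 3] with x hx hx3
      have hlog := one_lt_log hx3
      have h5 : (m x : ℝ) ≤ x := by
        have : (0 : ℝ) ≤ m x := Nat.cast_nonneg _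
        nlinarith
      exact_mod_cast h5
    have hKm : ∀ K : ℝ, ∀ᶠ x : ℕ in atTop, K * Real.log x ≤ m x := by
      intro K
      filter_upwards [hm.eventually_ge_atTop K, eventually_ge_atTop 3] with x hx hx3
      have hlog := one_lt_log hx3
      rwa [le_div_iff₀ (by linarith)] at hx
    have hprod : Tendsto (fun x : ℕ => (m x : ℝ) * Real.log x) atTop atTop := by
      refine tendsto_atTop_mono' atTop ?_ hl2
      filter_upwards [hKm 1, eventually_ge_atTop 3] with x hx hx3
      have hlog := one_lt_log hx3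
      nlinarith
    rw [tendsto_order]
    constructor
    · intro b hb
      obtain ⟨ε, hε1, hε2⟩ := exists_rat_btwn (show (0 : ℝ) < min ((1 - b)) 1 from lt_min (by linarith) one_pos)
      have hε3 : (ε : ℝ) < 1 - b := lt_of_lt_of_le hε2 (min_le_left _ _)
      have hε4 : (ε : ℝ) < 1 := lt_of_lt_of_le hε2 (min_le_right _ _)
      obtain ⟨K, hK⟩ := h4 ε hε1 hε4
      have hfl := (tendsto_floor (show (0 : ℝ) ≤ 1 - (ε : ℝ) by linarith) hprod).eventually_const_lt
        (show b < 1 - (ε : ℝ) by linarith)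
      filter_upwards [hK, hKm K, hmle, hfl, hmx, eventually_ge_atTop 3] with x hx1 hx2 hx3 hx4 hx5 hx6
      have hlog := one_lt_log hx6
      have h5 : ⌊(1 - (ε : ℝ)) * (m x * Real.log x)⌋₊ ≤ x := by
        have h6 : (⌊(1 - (ε : ℝ)) * (m x * Real.log x)⌋₊ : ℝ) ≤ (1 - (ε : ℝ)) * (m x * Real.log x) :=
          Nat.floor_le (mul_nonneg (by linarith) (by positivity))
        have h7 : (0 : ℝ) ≤ m x * Real.log x := by positivity
        have h8 : (⌊(1 - (ε : ℝ)) * (m x * Real.log x)⌋₊ : ℝ) ≤ x := by nlinarith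
        exact_mod_cast h8
      have h6 := le_worst (makes_iff.2 ⟨x, le_refl _, by omega, hx1 (m x) hx2 hx3⟩)
      refine lt_of_lt_of_le hx4 ?_
      apply div_le_div_of_nonneg_right _ (by positivity)
      exact_mod_cast h6
    · intro b hb
      obtain ⟨ε, hε1, hε2⟩ := exists_rat_btwn (show (0 : ℝ) < b - 1 by linarith)
      obtain ⟨K, hK⟩ := h3 ε hε1
      filter_upwards [hK, hKm K, hmle, hprod.eventually_gt_atTop 0] with x hx1 hx2 hx3 hx4
      by_contra hcon
      rw [not_lt, le_div_iff₀ hx4] at hcon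
      obtain ⟨y, hy1, hy2, hy3⟩ := makes_iff.1 (makes_worst (A ω) x (m x))
      refine hx1 (m x) hx2 hx3 y hy1 _ ?_ hy2 hy3
      refine le_trans ?_ hcon
      apply mul_le_mul_of_nonneg_right _ hx4.le
      linarith

end Pool.Agent.Results.MP_711652_nt.AdversarialDeletion
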