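import Pool.Agent.Q145.MT.Caught
import Pool.Agent.Q145.MT.Catch

set_option autoImplicit false

/-!
# Prime-catching sets of shifts

A finite set `A` of integers catches the primes at height `X` if for every integer `n` in `(X, 4 X]` one of the
`n + a`, `a ∈ A`, is prime. That the gaps between primes are bounded by a power of the logarithm says that the
intervals `{1, ..., (log X)^α}` catch the primes. We show that some sets of `C (log X)²` shifts catch the primes, and
that no set of `c log X log log X` shifts of any size up to `X ^ D` does; the second statement is proved for arbitrary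
families of linear forms, also with `n` a prime and with prime tuples.

Method: the covering sieve with arbitrary linear forms of the starting library (`Pool.Agent.TH101.RG`) and its version
for tuples (`Pool.Agent.Q145.MT.EngR`); new are the greedy choice of the classes for arbitrary linear forms and the
translation by a well chosen small shift, which makes the local obstructions of an arbitrary family bounded on average.
-/

namespace Pool.Agent.Results.MP_711652_nt.EveryFamilyOfShifts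

open Finset Filter

/-- `|a| / φ(|a|)` -/
noncomputable def w (a : ℤ) : ℝ := (a.natAbs : ℝ) / a.natAbs.totient

/-- More than `X ^ (4 / 5)` integers `n` in `(X, 4 X]` have the property `P`. -/
def Many (X : ℝ) (P : ℕ → Prop) : Prop :=
  X ^ (4 / 5 : ℝ) < ({n : ℕ | X < n ∧ (n : ℝ) ≤ 4 * X ∧ P n}.ncard : ℝ)

/-- No value at `n` of a form `a n + b`, `(a, b) ∈ F`, is a prime (or the negative of a prime). -/
def NoPrime (F : Finset (ℤ × ℤ)) (n : ℕ) : Prop := ∀ f ∈ F, ¬ (f.1 * (n : ℤ) + f.2).natAbs.Prime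

/-- The coefficients of the forms are at most `X ^ D`. -/
def Bounded (D : ℕ) (X : ℝ) (F : Finset (ℤ × ℤ)) : Prop := ∀ f ∈ F, |(f.1 : ℝ)| ≤ X ^ D ∧ |(f.2 : ℝ)| ≤ X ^ D

/-- 1. For every `D` there is `c > 0` such that for all large `X`:
   (a) for EVERY set `A` of at most `c log X log log X` integers `|a| ≤ X ^ D`, more than `X ^ (4 / 5)` integers `n` in
       `(X, 4 X]` have no prime among the `n + a`, `a ∈ A`;
   (b) for EVERY finite family `F` of forms `a n + b`, `a ≠ 0`, with coefficients at most `X ^ D` and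
       `∑ |a| / φ(|a|) ≤ c log X log log X`, more than `X ^ (4 / 5)` integers `n` in `(X, 4 X]` have no prime among the
       values of the forms;
   (c) the same with PRIMES `n`, if all `b ≠ 0` and `∑ w(a) w(b) ≤ c log X log log X`, `w(a) = |a| / φ(|a|)`.
2. There is `η > 0` and for every `m` a `K ≥ m` and for every `D` a `c > 0` such that for all large `X`, all admissible
   `K`-tuples `t_1, …, t_K ≤ (log X)²`, all colourings of the indices with `m` colours (each used at least `K / (2 m)`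
   times) and EVERY finite family `F` of forms with coefficients at most `X ^ D`, none of them a multiple of an
   `n + t_j`, and `∑ w(a) ∏ w(a t_j - b) ≤ c log X log log X`: more than `X ^ (4 / 5)` integers `n` in `(X, 4 X]` are
   such that at least `η m` colours contain a `j` with `n + t_j` prime, and no value of a form is prime.
3. There are `θ < 1` and `C` such that for all large `X` and `X ^ θ ≤ Y ≤ X` some set `A` of at most `C (log X)²`
   integers in `[1, Y]` catches a prime everywhere: for EVERY integer `0 ≤ n ≤ 4 X` some `n + a`, `a ∈ A`, is prime. -/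
theorem result :
    (∀ D : ℕ, ∃ c : ℝ, 0 < c ∧ ∀ᶠ X : ℝ in atTop,
      (∀ A : Finset ℤ, (∀ a ∈ A, |(a : ℝ)| ≤ X ^ D) → (A.card : ℝ) ≤ c * (Real.log X * Real.log (Real.log X)) →
        Many X (fun n => ∀ a ∈ A, ¬ ((n : ℤ) + a).natAbs.Prime)) ∧
      (∀ F : Finset (ℤ × ℤ), (∀ f ∈ F, f.1 ≠ 0) → Bounded D X F →
        ∑ f ∈ F, w f.1 ≤ c * (Real.log X * Real.log (Real.log X)) → Many X (NoPrime F)) ∧
      (∀ F : Finset (ℤ × ℤ), (∀ f ∈ F, f.1 ≠ 0 ∧ f.2 ≠ 0) → Bounded D X F →
        ∑ f ∈ F, w f.1 * w f.2 ≤ c * (Real.log X * Real.log (Real.log X)) →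
        Many X (fun n => n.Prime ∧ NoPrime F n))) ∧
    (∃ η : ℝ, 0 < η ∧ ∀ m : ℕ, 1 ≤ m → ∃ K : ℕ, m ≤ K ∧ ∀ D : ℕ, ∃ c : ℝ, 0 < c ∧ ∀ᶠ X : ℝ in atTop,
      ∀ t : Fin K → ℕ, Function.Injective t → (∀ j, (t j : ℝ) ≤ (Real.log X) ^ 2) →
      (∀ p : ℕ, p.Prime → ∃ v : ℕ, ∀ j, ¬ p ∣ v + t j) →
      ∀ col : Fin K → Fin m, (∀ e, K ≤ 2 * m * (univ.filter (fun j => col j = e)).card) →
      ∀ F : Finset (ℤ × ℤ), (∀ f ∈ F, f.1 ≠ 0 ∧ ∀ j, f.1 * t j ≠ f.2) → Bounded D X F →
      ∑ f ∈ F, w f.1 * ∏ j, w (f.1 * t j - f.2) ≤ c * (Real.log X * Real.log (Real.log X)) →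
      Many X (fun n => (∃ E : Finset (Fin m), η * m ≤ E.card ∧ ∀ e ∈ E, ∃ j, col j = e ∧ (n + t j).Prime) ∧
        NoPrime F n)) ∧
    (∃ θ : ℝ, 0 < θ ∧ θ < 1 ∧ ∃ C : ℝ, 0 < C ∧ ∀ᶠ X : ℝ in atTop, ∀ Y : ℝ, X ^ θ ≤ Y → Y ≤ X →
      ∃ A : Finset ℕ, (∀ a ∈ A, 1 ≤ a ∧ (a : ℝ) ≤ Y) ∧ (A.card : ℝ) ≤ C * (Real.log X) ^ 2 ∧
        ∀ n : ℕ, (n : ℝ) ≤ 4 * X → ∃ a ∈ A, (n + a).Prime) := by
  refine ⟨fun D => ?_, Q145.MT.tupleF, Q145.MT.catch_primes⟩
  obtain ⟨c₁, hc₁, h1⟩ := Q145.MT.anyF (D + 1)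
  obtain ⟨c₂, hc₂, h2⟩ := Q145.MT.primeF D
  refine ⟨min c₁ c₂, lt_min hc₁ hc₂, ?_⟩
  filter_upwards [h1, h2, Q145.MT.evT] with X h1 h2 hT
  obtain ⟨hL, hA, -, -, hX16⟩ := hT
  have hLA : 0 ≤ Real.log X * Real.log (Real.log X) := by
    apply mul_nonneg <;> linarith
  have hXD : 1 ≤ X ^ D := one_le_pow₀ (by linarith)
  have hXD1 : X ^ D ≤ X ^ (D + 1) := by
    rw [pow_succ]
    nlinarith
  have hc1 := mul_le_mul_of_nonneg_right (min_le_left c₁ c₂) hLA
  have hc2 := mul_le_mul_of_nonneg_right (min_le_right c₁ c₂) hLA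
  have hb : ∀ F : Finset (ℤ × ℤ), (∀ f ∈ F, f.1 ≠ 0) → Bounded D X F →
      ∑ f ∈ F, w f.1 ≤ min c₁ c₂ * (Real.log X * Real.log (Real.log X)) → Many X (NoPrime F) := by
    intro F hF hB hw
    exact h1 F hF (fun f hf => ⟨(hB f hf).1.trans hXD1, (hB f hf).2.trans hXD1⟩) (hw.trans hc1)
  refine ⟨?_, hb, fun F hF hB hw => h2 F hF hB (hw.trans hc2)⟩
  intro A hAD hAc
  have h3 := hb (A.image (fun a => ((1 : ℤ), a)))
    (by
      intro f hf
      obtain ⟨a, ha, rfl⟩ := mem_image.1 hf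
      exact one_ne_zero)
    (by
      intro f hf
      obtain ⟨a, ha, rfl⟩ := mem_image.1 hf
      refine ⟨?_, hAD a ha⟩
      simpa using hXD)
    (by
      rw [sum_image (fun a _ b _ h => (Prod.mk.injEq _ _ _ _ ▸ h).2)]
      have h4 : ∑ a ∈ A, w ((1 : ℤ), a).1 = A.card := by
        have h5 : w 1 = 1 := by
          unfold w
          simp
        show ∑ _a ∈ A, w 1 = A.card
        rw [h5, sum_const, nsmul_eq_mul, mul_one]
      rw [h4]
      exact hAc)
  unfold Many at h3 ⊢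
  refine h3.trans_le ?_
  have h6 : {n : ℕ | X < n ∧ (n : ℝ) ≤ 4 * X ∧ NoPrime (A.image (fun a => ((1 : ℤ), a))) n} =
      {n : ℕ | X < n ∧ (n : ℝ) ≤ 4 * X ∧ ∀ a ∈ A, ¬ ((n : ℤ) + a).natAbs.Prime} := by
    ext n
    rw [Set.mem_ofPred_eq, Set.mem_ofPred_eq]
    unfold NoPrime
    constructor
    · rintro ⟨a1, a2, a3⟩
      refine ⟨a1, a2, fun a ha => ?_⟩
      have := a3 ((1 : ℤ), a) (mem_image_of_mem _ ha)
      rwa [one_mul] at this
    · rintro ⟨a1, a2, a3⟩
      refine ⟨a1, a2, fun f hf => ?_⟩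
      obtain ⟨a, ha, rfl⟩ := mem_image.1 hf
      rw [one_mul]
      exact a3 a ha
  rw [h6]

end Pool.Agent.Results.MP_711652_nt.EveryFamilyOfShifts
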