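import Pool.Agent.Q167.LI.T
import Pool.Agent.Q198.CI.T3c

/-!
# The largest gaps in Cramér's model for every order of independence

In Cramér's random model every integer `n ≥ 3` belongs to the random set `A` with probability
`1 / log n`, and the events `n ∈ A` are independent. In the model with independence of order `κ`
only those sets `T` of events have to be independent whose number of elements is at most `κ n` for
all `n ∈ T`.

Let `κ` be nondecreasing with `κ n / log log n → ∞`, and put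
`m = min (⌊κ x / 2⌋, ⌊log x⌋)`, `G x = ((m / e) x ^ (1 / m) log x) ^ (m / (m + 1))`.
(1) In every model of order `κ`, almost surely for every `ε > 0` the interval
    `(x, x + (1 + ε) G x]` contains an element of `A` for all large `x`.
(2) In some model of order `κ`, almost surely for every `ε > 0` there are infinitely many `x` such
    that the interval `(x, x + (1 - ε) G x]` contains no element of `A`.
(3) For nondecreasing `κ` all gaps are at most a power of `log x` in all models of order `κ`, if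
    and only if `κ n ≥ c log n / log log n` for some `c > 0` and all large `n`.
-/

set_option autoImplicit false

namespace Pool.Agent.Results.MP_711652_nt.GapLawEveryOrder

open MeasureTheory Filter Topology

/-- Cramér's model with independence of order `κ`: `E n` is the event that the integer `n` belongs
to the random set. For every finite set `T` of integers `n ≥ 3` with at most `κ n` elements for
all `n ∈ T`, the probability that `T` is contained in the random set is `∏ 1 / log n`. -/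
structure CramerModel {Ω : Type} [MeasurableSpace Ω] (P : Measure Ω) (κ : ℕ → ℕ)
    (E : ℕ → Set Ω) : Prop where
  meas : ∀ n, MeasurableSet (E n)
  indep : ∀ T : Finset ℕ, (∀ n ∈ T, 3 ≤ n ∧ T.card ≤ κ n) →
    P (⋂ n ∈ T, E n) = ENNReal.ofReal (∏ n ∈ T, 1 / Real.log n)

/-- The integer `m = min (⌊κ x / 2⌋, ⌊log x⌋)`. -/
noncomputable def halfOrder (κ : ℕ → ℕ) (x : ℕ) : ℕ := min (κ x / 2) ⌊Real.log x⌋₊

/-- The gap function `G x = ((m / e) x ^ (1 / m) log x) ^ (m / (m + 1))`, `m = halfOrder κ x`. -/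
noncomputable def gapFunction (κ : ℕ → ℕ) (x : ℕ) : ℝ :=
  ((halfOrder κ x : ℝ) / Real.exp 1 * (x : ℝ) ^ (1 / (halfOrder κ x : ℝ)) * Real.log x) ^
    ((halfOrder κ x : ℝ) / ((halfOrder κ x : ℝ) + 1))

lemma gapFunction_eq (κ : ℕ → ℕ) (x : ℕ) :
    gapFunction κ x = Q167.LI.GG (Q167.LI.ord κ x) x := rfl

lemma fast {κ : ℕ → ℕ}
    (h : Tendsto (fun n : ℕ => (κ n : ℝ) / Real.log (Real.log n)) atTop atTop) :
    Q167.LI.Fast κ := by
  intro C
  have hll : Tendsto (fun n : ℕ => Real.log (Real.log (n : ℝ))) atTop atTop :=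
    Real.tendsto_log_atTop.comp Q167.LI.tendsto_log_nat
  filter_upwards [h.eventually_ge_atTop C, hll.eventually_gt_atTop 0] with n h1 h2
  rw [le_div_iff₀ h2] at h1
  exact h1

/-- the law of the largest gaps for every order of independence -/
theorem result :
    (∀ κ : ℕ → ℕ, Monotone κ →
      Tendsto (fun n : ℕ => (κ n : ℝ) / Real.log (Real.log n)) atTop atTop →
      (∀ (Ω : Type) [MeasurableSpace Ω] (P : Measure Ω) [IsProbabilityMeasure P]
        (E : ℕ → Set Ω), CramerModel P κ E → ∀ᵐ ω ∂P, ∀ ε : ℝ, 0 < ε →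
          ∀ᶠ x : ℕ in atTop, ∃ n : ℕ, x < n ∧
            (n : ℝ) ≤ x + (1 + ε) * gapFunction κ x ∧ ω ∈ E n) ∧
      ∃ (Ω : Type) (_ : MeasurableSpace Ω) (P : Measure Ω) (_ : IsProbabilityMeasure P)
        (E : ℕ → Set Ω), CramerModel P κ E ∧ ∀ᵐ ω ∂P, ∀ ε : ℝ, 0 < ε →
          ∃ᶠ x : ℕ in atTop, ∀ n : ℕ, x < n →
            (n : ℝ) ≤ x + (1 - ε) * gapFunction κ x → ω ∉ E n) ∧
    (∀ κ : ℕ → ℕ, Monotone κ →
      ((∀ (Ω : Type) (_ : MeasurableSpace Ω) (P : Measure Ω) (_ : IsProbabilityMeasure P)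
        (E : ℕ → Set Ω), CramerModel P κ E → ∀ᵐ ω ∂P, ∃ A : ℝ, ∀ᶠ x : ℕ in atTop,
          ∃ n : ℕ, x < n ∧ (n : ℝ) ≤ x + Real.log x ^ A ∧ ω ∈ E n) ↔
      ∃ c : ℝ, 0 < c ∧ ∀ᶠ n : ℕ in atTop, c * (Real.log n / Real.log (Real.log n)) ≤ κ n)) := by
  refine ⟨fun κ hmono hκ => ⟨?_, ?_⟩, fun κ hmono => ?_⟩
  · intro Ω _ P _ E hM
    have h1 : ∀ᵐ ω ∂P, ∀ k : ℕ, ∀ᶠ x : ℕ in atTop, ∃ n : ℕ, x < n ∧
        (n : ℝ) ≤ x + (1 + 1 / ((k : ℝ) + 1)) * gapFunction κ x ∧ ω ∈ E n := by
      rw [ae_all_iff]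
      intro k
      have hk : (0:ℝ) < 1 / ((k : ℝ) + 1) := by positivity
      have hk1 : 1 / ((k : ℝ) + 1) ≤ 1 := by
        rw [div_le_one (by positivity)]
        have : (0:ℝ) ≤ k := Nat.cast_nonneg _
        linarith
      exact Q167.LI.univ_upper P hM.meas hM.indep hmono (fast hκ) hk hk1
    filter_upwards [h1] with ω hω
    intro ε hε
    obtain ⟨k, hk⟩ := exists_nat_one_div_lt hε
    filter_upwards [hω k, eventually_ge_atTop 1] with x hx hx1
    obtain ⟨n, h2, h3, h4⟩ := hx
    refine ⟨n, h2, h3.trans ?_, h4⟩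
    have hG : 0 ≤ gapFunction κ x := by
      unfold gapFunction
      have h5 : 0 ≤ Real.log (x : ℝ) := Real.log_nonneg (by exact_mod_cast hx1)
      positivity
    have := mul_le_mul_of_nonneg_right hk.le hG
    linarith
  · obtain ⟨Ω, mΩ, P, hP, E, hE, hT, hae⟩ := Q167.LI.univ_lower hmono (fast hκ)
    exact ⟨Ω, mΩ, P, hP, E, ⟨hE, hT⟩, hae⟩
  · rw [← Q198.CI.poly_iff hmono]
    constructor
    · intro h Ω mΩ P hP E hM
      exact h Ω mΩ P hP E ⟨hM.meas, hM.indep⟩
    · intro h Ω mΩ P hP E hM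
      exact h Ω mΩ P hP E ⟨hM.meas, hM.indep⟩

end Pool.Agent.Results.MP_711652_nt.GapLawEveryOrder
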