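import Pool.Agent.Results.MP_711652_nt.ThinTranslates
import Pool.Agent.Q152.SamplingTail

/-!
# Few sampled shifts bring almost all integers within a power of the logarithm of primes

The theorem `ThinTranslates.result` of the starting files says: for an arbitrary dense set `A`, almost all
members `b` of a thin family have primes at distance at most `(log N) ^ K` from a proportion of at least
`1 / 4 - ε` of the points of `A + b`. Here the proportion is raised from `1 / 4` to `1 - 1 / (log N) ^ C` by using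
`r ≍ log log N` members of the family: `ThinTranslates.result` is applied to the level sets of the function
`a ↦ #{i : the point a + s (v i) is good}` for the initial segments of the tuple `v`, and an exponential moment
decreases by a constant factor in every step (`Pool.Agent.Q152.Sampling`).
-/

set_option autoImplicit false

namespace Pool.Agent.Results.MP_711652_nt.SampledTranslates

open Finset Pool.Agent.Q152.Sampling
open Pool.Agent.Results.MP_711652_nt
open Pool.Agent.Results.MP_711652_nt.ThinTranslates (energy num primesIn Good)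

open Classical in
/-- The number of the tuples `v` of length `r` of elements of `{1, ..., x}` with the property `E`. -/
noncomputable def tuples (x r : ℕ) (E : (Fin r → ℕ) → Prop) : ℝ :=
  (((Fintype.piFinset fun _ : Fin r => Icc 1 x).filter E).card : ℝ)

open Classical in
/-- The number of the `i` such that `(a + b i, a + b i + y]` contains at least `(ε / 2) y / log N` primes. -/
noncomputable def hits (ε : ℝ) (N r : ℕ) (b : Fin r → ℕ) (y a : ℕ) : ℕ :=
  ((univ : Finset (Fin r)).filter fun i => ε * y ≤ 2 * (primesIn (a + b i) y : ℝ) * Real.log N).card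

open Classical in
/-- The shifts `b i`, `i < r`, sample the integers up to `N`: for every integer `y` with
`(log N) ^ K ≤ y ≤ N`, all but at most `(exp (-ε² r / 2) + 1 / (log N) ^ C) N` of the integers `a` in `[1, N]`
are such that for at least `(1 / 4 - 2 ε) r` of the `i` there are at least `(ε / 2) y / log N` primes in
`(a + b i, a + b i + y]`; and if `r ≥ (2 (C + 2) / ε²) log log N` this holds for all but at most `N / (log N) ^ C`
integers `a` in `[1, N]` for all these `y` simultaneously. -/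
def Samples (ε : ℝ) (C K N r : ℕ) (b : Fin r → ℕ) : Prop :=
  (∀ y : ℕ, Real.log N ^ K ≤ y → y ≤ N →
    (((Icc 1 N).filter fun a => (hits ε N r b y a : ℝ) < (1 / 4 - 2 * ε) * r).card : ℝ) ≤
      (Real.exp (-(ε ^ 2 * r / 2)) + 1 / Real.log N ^ C) * N) ∧
  (2 * (C + 2) / ε ^ 2 * Real.log (Real.log N) ≤ r →
    (((Icc 1 N).filter fun a => ∃ y : ℕ, Real.log N ^ K ≤ y ∧ y ≤ N ∧
      (hits ε N r b y a : ℝ) < (1 / 4 - 2 * ε) * r).card : ℝ) ≤ N / Real.log N ^ C)

lemma primesIn_mono {n y z : ℕ} (h : y ≤ z) : primesIn n y ≤ primesIn n z := by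
  unfold primesIn
  apply card_le_card
  apply filter_subset_filter
  apply Ioc_subset_Ioc_right
  omega

lemma core (C U κ K₀ N x : ℕ) (ε : ℝ) (hε : 0 < ε) (hε1 : ε ≤ 1 / 8) (s : ℕ → ℤ)
    (hL8 : 8 ≤ Real.log N) (hLκ : κ * Real.log (Real.log N) + 1 ≤ Real.log N)
    (H : ∀ A : Finset ℕ, A ⊆ Icc 1 N → N / Real.log N ^ (C + κ + 4) ≤ (A.card : ℝ) →
      num x (fun m => 0 < s m ∧ s m ≤ N ∧ ¬ Good ε K₀ N A (s m).toNat) ≤ x / Real.log N ^ (U + 4))
    (r : ℕ) (hr : (r : ℝ) ≤ κ * Real.log (Real.log N)) :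
    tuples x r (fun v => (∀ i, 0 < s (v i) ∧ s (v i) ≤ N) ∧
      ¬ Samples ε C (K₀ + 1) N r (fun i => (s (v i)).toNat)) ≤ x ^ r / Real.log N ^ U := by
  classical
  obtain ⟨L, hL⟩ : ∃ L, L = Real.log N := ⟨_, rfl⟩
  rw [← hL] at hL8 hLκ H hr
  have hL0 : 0 < L := by linarith
  have hr0 : (0 : ℝ) ≤ r := Nat.cast_nonneg r
  have hN0 : N ≠ 0 := by
    rintro rfl
    rw [Nat.cast_zero, Real.log_zero] at hL
    linarith
  have hNr : (0 : ℝ) < N := by exact_mod_cast Nat.pos_of_ne_zero hN0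
  obtain ⟨Y, hY⟩ : ∃ Y : Finset ℕ, Y = ((range (Nat.log 2 N + 1)).filter
      fun j => L ^ K₀ ≤ ((2 ^ j : ℕ) : ℝ)).image (fun j => 2 ^ j) := ⟨_, rfl⟩
  have hYcard : (Y.card : ℝ) ≤ 2 * L := by
    have h1 : (Y.card : ℝ) ≤ (Nat.log 2 N : ℝ) + 1 := by
      rw [hY]
      refine (Nat.cast_le.2 (card_image_le.trans (card_filter_le _ _))).trans ?_
      rw [card_range]
      push_cast
      exact le_rfl
    have h2 : (Nat.log 2 N : ℝ) * Real.log 2 ≤ L := by
      have h3 : ((2 ^ Nat.log 2 N : ℕ) : ℝ) ≤ N := by exact_mod_cast Nat.pow_log_le_self 2 hN0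
      have h4 := Real.log_le_log (by positivity) h3
      rw [Nat.cast_pow, Real.log_pow] at h4
      rw [hL]
      exact_mod_cast h4
    have h5 := Real.log_two_gt_d9
    have h6 : (0 : ℝ) ≤ Nat.log 2 N := Nat.cast_nonneg _
    nlinarith
  obtain ⟨hit, hhit⟩ : ∃ hit : ℕ → ℕ → ℕ → Prop, hit = fun y m a =>
      ε * y ≤ (primesIn (a + (s m).toNat) y : ℝ) * L := ⟨_, rfl⟩
  obtain ⟨ok, hok⟩ : ∃ ok : ℕ → Prop, ok = fun m => 0 < s m ∧ s m ≤ N := ⟨_, rfl⟩
  obtain ⟨τ, hτ⟩ : ∃ τ : ℝ, τ = N / L ^ (C + κ + 4) := ⟨_, rfl⟩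
  obtain ⟨η, hη⟩ : ∃ η : ℝ, η = 1 / L ^ (U + 4) := ⟨_, rfl⟩
  have hτ0 : 0 ≤ τ := by rw [hτ]; positivity
  have hη0 : 0 ≤ η := by rw [hη]; positivity
  have hX : ((Icc 1 N).card : ℝ) = N := by rw [Nat.card_Icc, Nat.add_sub_cancel]
  have hM : ((Icc 1 x).card : ℝ) = x := by rw [Nat.card_Icc, Nat.add_sub_cancel]
  have hH : ∀ y ∈ Y, ∀ A ⊆ Icc 1 N, τ ≤ (A.card : ℝ) →
      (((Icc 1 x).filter fun m => ok m ∧
        BadFor (hit y) (1 / 4 - ε) A m).card : ℝ) ≤ η * ((Icc 1 x).card : ℝ) := by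
    intro y hy A hA hAτ
    rw [hY, mem_image] at hy
    obtain ⟨j, hj, rfl⟩ := hy
    rw [mem_filter, mem_range] at hj
    have h1 := H A hA (by rw [← hτ]; exact hAτ)
    have h2 : x / L ^ (U + 4) = η * ((Icc 1 x).card : ℝ) := by
      rw [hM, hη]
      ring
    rw [h2] at h1
    refine le_trans ?_ h1
    unfold num
    apply Nat.cast_le.2
    apply card_le_card
    intro m hm
    simp only [mem_filter] at hm ⊢
    have hm3 := hm.2.1
    rw [hok] at hm3
    refine ⟨hm.1, hm3.1, hm3.2, fun hg => ?_⟩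
    have h3 := (hg (2 ^ j) (by rw [← hL]; exact hj.2)
      ((Nat.pow_le_pow_right (by norm_num) (by omega)).trans (Nat.pow_log_le_self 2 hN0))).2
    have h4 := hm.2.2
    unfold BadFor at h4
    rw [hhit] at h4
    rw [← hL] at h3
    exact absurd h3 (not_le.2 h4)
  have hsev := several (r := r) hτ0 hη0 hε hε1 hH
  -- the bound for the number of the tuples
  have hrL : (r : ℝ) + 1 ≤ L := by linarith
  have hbound : (Y.card : ℝ) * (r * (r + 1) * η * ((Icc 1 x).card : ℝ) ^ r) ≤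
      x ^ r / L ^ U := by
    rw [hM, hη]
    have h1 : (r : ℝ) * (r + 1) ≤ L * L := by nlinarith
    have hx : (0 : ℝ) ≤ (x : ℝ) ^ r := by positivity
    calc (Y.card : ℝ) * (r * (r + 1) * (1 / L ^ (U + 4)) * (x : ℝ) ^ r)
        ≤ (2 * L) * (L * L * (1 / L ^ (U + 4)) * (x : ℝ) ^ r) := by gcongr
      _ = 2 / L * ((x : ℝ) ^ r / L ^ U) := by
          rw [show U + 4 = U + 1 + 3 by ring, pow_add L (U + 1) 3, pow_succ]
          field_simp
      _ ≤ 1 * ((x : ℝ) ^ r / L ^ U) := by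
          apply mul_le_mul_of_nonneg_right _ (by positivity)
          rw [div_le_one hL0]
          linarith
      _ = x ^ r / L ^ U := one_mul _
  refine le_trans ?_ (hsev.trans (by rw [← hL]; exact hbound))
  unfold tuples
  apply Nat.cast_le.2
  apply card_le_card
  intro v hv
  simp only [mem_filter] at hv ⊢
  refine ⟨hv.1, fun i => by rw [hok]; exact hv.2.1 i, ?_⟩
  by_contra hcon
  push Not at hcon
  apply hv.2.2
  -- the tuple is not exceptional
  have hexp : Real.exp r ≤ L ^ κ := by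
    have h1 := Real.exp_le_exp.2 hr
    rw [Real.exp_nat_mul, Real.exp_log hL0] at h1
    exact h1
  have htail : Real.exp r * (r * (r + 1) * τ) ≤ N / L ^ (C + 2) := by
    have h1 : (r : ℝ) * (r + 1) ≤ L * L := by nlinarith
    calc Real.exp r * (r * (r + 1) * τ) ≤ L ^ κ * (L * L * τ) := by gcongr
      _ = N / L ^ (C + 2) := by
          rw [hτ]
          rw [show C + κ + 4 = κ + 2 + (C + 2) by ring, pow_add L (κ + 2) (C + 2)]
          field_simp
          ring
  have hfew : ∀ y₀ ∈ Y, ((few (hit y₀) (Icc 1 N) (1 / 4 - 2 * ε) r v).card : ℝ) ≤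
      Real.exp (-(ε ^ 2 * r / 2)) * N + N / L ^ (C + 2) := by
    intro y₀ hy₀
    have := hcon y₀ hy₀
    rw [hX] at this
    linarith
  have hred : ∀ y : ℕ, L ^ (K₀ + 1) ≤ y → y ≤ N → ∃ y₀ ∈ Y, ∀ a ∈ Icc 1 N,
      (hits ε N r (fun i => (s (v i)).toNat) y a : ℝ) < (1 / 4 - 2 * ε) * r →
      a ∈ few (hit y₀) (Icc 1 N) (1 / 4 - 2 * ε) r v := by
    intro y hy1 hy2
    have hy0 : y ≠ 0 := by
      rintro rfl
      have : (0 : ℝ) < L ^ (K₀ + 1) := by positivity
      rw [Nat.cast_zero] at hy1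
      linarith
    have h1 : 2 ^ Nat.log 2 y ≤ y := Nat.pow_log_le_self 2 hy0
    have h2 : y < 2 ^ (Nat.log 2 y + 1) := Nat.lt_pow_succ_log_self (by norm_num) y
    have h3 : (y : ℝ) < 2 * ((2 ^ Nat.log 2 y : ℕ) : ℝ) := by
      rw [pow_succ] at h2
      have : y < 2 * 2 ^ Nat.log 2 y := by omega
      exact_mod_cast this
    refine ⟨2 ^ Nat.log 2 y, ?_, fun a ha hlt => ?_⟩
    · rw [hY, mem_image]
      refine ⟨Nat.log 2 y, mem_filter.2 ⟨mem_range.2 ?_, ?_⟩, rfl⟩
      · have := Nat.log_mono_right (b := 2) hy2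
        omega
      · have h4 : 2 * L ^ K₀ ≤ L ^ (K₀ + 1) := by
          rw [pow_succ]
          nlinarith [pow_pos hL0 K₀]
        linarith
    · refine mem_filter.2 ⟨ha, lt_of_le_of_lt ?_ hlt⟩
      apply Nat.cast_le.2
      unfold cnt hits
      apply card_le_card
      intro i hi0
      have hi := mem_filter.1 hi0
      refine mem_filter.2 ⟨mem_univ _, ?_⟩
      have h4 := hi.2
      rw [hhit] at h4
      have h5 : (primesIn (a + (s (v i)).toNat) (2 ^ Nat.log 2 y) : ℝ) ≤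
          primesIn (a + (s (v i)).toNat) y := Nat.cast_le.2 (primesIn_mono h1)
      rw [← hL]
      have h6 : ε * y ≤ 2 * (ε * ((2 ^ Nat.log 2 y : ℕ) : ℝ)) := by nlinarith
      have h7 := mul_le_mul_of_nonneg_right h5 hL0.le
      have h8 : ε * ((2 ^ Nat.log 2 y : ℕ) : ℝ) ≤
          (primesIn (a + (s (v i)).toNat) (2 ^ Nat.log 2 y) : ℝ) * L := h4
      linarith
  have hpw : L ^ C ≤ L ^ (C + 2) := pow_le_pow_right₀ (by linarith) (by omega)
  have hpw0 : 0 < L ^ C := by positivity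
  refine ⟨fun y hy1 hy2 => ?_, fun hrbig => ?_⟩
  · rw [← hL] at hy1 ⊢
    obtain ⟨y₀, hy₀, h⟩ := hred y hy1 hy2
    have h1 := hfew y₀ hy₀
    refine (Nat.cast_le.2 (card_le_card (t := few (hit y₀) (Icc 1 N) (1 / 4 - 2 * ε) r v)
      fun a ha => h a (mem_filter.1 ha).1 (mem_filter.1 ha).2)).trans (h1.trans ?_)
    have h2 : (N : ℝ) / L ^ (C + 2) ≤ N / L ^ C := by gcongr
    calc Real.exp (-(ε ^ 2 * r / 2)) * N + N / L ^ (C + 2)
        ≤ Real.exp (-(ε ^ 2 * r / 2)) * N + N / L ^ C := by linarith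
      _ = (Real.exp (-(ε ^ 2 * r / 2)) + 1 / L ^ C) * N := by ring
  · rw [← hL] at hrbig ⊢
    have hsub : ((Icc 1 N).filter fun a => ∃ y : ℕ, L ^ (K₀ + 1) ≤ y ∧ y ≤ N ∧
        (hits ε N r (fun i => (s (v i)).toNat) y a : ℝ) < (1 / 4 - 2 * ε) * r) ⊆
        Y.biUnion fun y₀ => few (hit y₀) (Icc 1 N) (1 / 4 - 2 * ε) r v := by
      intro a ha
      obtain ⟨ha1, y, hy1, hy2, h⟩ := mem_filter.1 ha
      obtain ⟨y₀, hy₀, h'⟩ := hred y hy1 hy2
      exact mem_biUnion.2 ⟨y₀, hy₀, h' a ha1 h⟩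
    have hexp2 : Real.exp (-(ε ^ 2 * r / 2)) ≤ 1 / L ^ (C + 2) := by
      have h1 : ((C + 2 : ℕ) : ℝ) * Real.log L ≤ ε ^ 2 * r / 2 := by
        have h2 : 0 < ε ^ 2 := by positivity
        have h3 := mul_le_mul_of_nonneg_left hrbig h2.le
        have h4 : ε ^ 2 * (2 * (C + 2) / ε ^ 2 * Real.log L) = 2 * (C + 2) * Real.log L := by
          field_simp
        rw [h4] at h3
        push_cast
        linarith
      rw [Real.exp_neg, ← one_div]
      apply one_div_le_one_div_of_le (by positivity)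
      calc L ^ (C + 2) = Real.exp (((C + 2 : ℕ) : ℝ) * Real.log L) := by
            rw [Real.exp_nat_mul, Real.exp_log hL0]
        _ ≤ _ := Real.exp_le_exp.2 h1
    refine (Nat.cast_le.2 ((card_le_card hsub).trans card_biUnion_le)).trans ?_
    rw [Nat.cast_sum]
    refine (sum_le_sum fun y₀ hy₀ => hfew y₀ hy₀).trans ?_
    rw [sum_const, nsmul_eq_mul]
    have h5 : Real.exp (-(ε ^ 2 * r / 2)) * N + N / L ^ (C + 2) ≤ 2 * (N / L ^ (C + 2)) := by
      have := mul_le_mul_of_nonneg_right hexp2 hNr.le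
      have h6 : 1 / L ^ (C + 2) * N = N / L ^ (C + 2) := by ring
      linarith
    calc (Y.card : ℝ) * (Real.exp (-(ε ^ 2 * r / 2)) * N + N / L ^ (C + 2))
        ≤ (2 * L) * (2 * (N / L ^ (C + 2))) := by gcongr
      _ = 4 / L * (N / L ^ C) := by
          field_simp
          ring
      _ ≤ 1 * (N / L ^ C) := by
          apply mul_le_mul_of_nonneg_right _ (by positivity)
          rw [div_le_one hL0]
          linarith
      _ = N / L ^ C := one_mul _

lemma ev_large (κ : ℕ) : ∃ N₀ : ℕ, ∀ N : ℕ, N₀ ≤ N → 8 ≤ Real.log N ∧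
    κ * Real.log (Real.log N) + 1 ≤ Real.log N := by
  have h1 : Filter.Tendsto (fun N : ℕ => Real.log N) Filter.atTop Filter.atTop :=
    Real.tendsto_log_atTop.comp tendsto_natCast_atTop_atTop
  have h2 : ∀ᶠ L : ℝ in Filter.atTop, κ * Real.log L + 1 ≤ L := by
    have h3 := Real.isLittleO_log_id_atTop.bound (c := 1 / (2 * (κ + 1))) (by positivity)
    filter_upwards [h3, Filter.eventually_ge_atTop (2 : ℝ)] with L hL1 hL2
    rw [Real.norm_eq_abs, Real.norm_eq_abs, id, abs_of_nonneg (Real.log_nonneg (by linarith)),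
      abs_of_nonneg (by linarith : (0 : ℝ) ≤ L)] at hL1
    have h4 : (κ : ℝ) * Real.log L ≤ L / 2 := by
      have h5 : (κ : ℝ) * Real.log L ≤ κ * (1 / (2 * (κ + 1)) * L) := by gcongr
      have h6 : (κ : ℝ) * (1 / (2 * (κ + 1)) * L) ≤ L / 2 := by
        rw [show (κ : ℝ) * (1 / (2 * (κ + 1)) * L) = (κ / (κ + 1)) * (L / 2) by
          field_simp]
        have h7 : (κ : ℝ) / (κ + 1) ≤ 1 := by
          rw [div_le_one (by positivity)]
          linarith
        nlinarith
      linarith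
    linarith
  obtain ⟨N₀, h⟩ := Filter.eventually_atTop.1
    ((h1.eventually (Filter.eventually_ge_atTop 8)).and (h1.eventually h2))
  exact ⟨N₀, fun N hN => h N hN⟩

/-- Let `B`, `C`, `U`, `κ` and `0 < ε ≤ 1 / 8` be fixed.

* For every `p` there is a `K` such that for all `N ≥ K` the following holds. Let `s 1, ..., s x` be an
  arbitrary family of integers in `[-B N, B N]` with an additive energy of order `p` of at most `log ^ C N`
  times the minimal possible size `x ^ (2 p) / N`, and let `r ≤ κ log log N`. Then all the tuples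
  `(v 1, ..., v r)` of elements of `{1, ..., x}` with `0 < s (v i) ≤ N`, with at most `x ^ r / log ^ U N`
  exceptions, are such that the numbers `s (v i)` sample the integers up to `N` (`Samples`): for every integer
  `y` with `(log N) ^ K ≤ y ≤ N` and for all but at most `(exp (-ε² r / 2) + 1 / (log N) ^ C) N` integers `a`
  in `[1, N]` there are at least `(1 / 4 - 2 ε) r` indices `i` with at least `(ε / 2) y / log N` primes in
  `(a + s (v i), a + s (v i) + y]`; and if `r ≥ (2 (C + 2) / ε²) log log N`, then this holds for all but at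
  most `N / (log N) ^ C` integers `a` in `[1, N]` for all these `y` simultaneously.
* In particular this holds for the members `c + f m`, `m ≤ x`, where `f` is a fixed nonconstant
  polynomial with integer coefficients, of degree `d`, `N / log ^ C N ≤ x ^ d ≤ B N` and `|c| ≤ B N`. -/
theorem result (B C U κ : ℕ) (ε : ℝ) (hε : 0 < ε) (hε1 : ε ≤ 1 / 8) :
    (∀ p : ℕ, ∃ K : ℕ, ∀ N : ℕ, K ≤ N → ∀ (x : ℕ) (s : ℕ → ℤ), (∀ m ∈ Icc 1 x, |s m| ≤ B * N) →
      (energy p x s : ℝ) * N ≤ Real.log N ^ C * (x : ℝ) ^ (2 * p) →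
      ∀ r : ℕ, (r : ℝ) ≤ κ * Real.log (Real.log N) →
        tuples x r (fun v => (∀ i, 0 < s (v i) ∧ s (v i) ≤ N) ∧
          ¬ Samples ε C K N r (fun i => (s (v i)).toNat)) ≤ x ^ r / Real.log N ^ U) ∧
    (∀ f : Polynomial ℤ, 1 ≤ f.natDegree → ∃ K : ℕ, ∀ N : ℕ, K ≤ N → ∀ x : ℕ,
      x ^ f.natDegree ≤ B * N → (N : ℝ) ≤ Real.log N ^ C * (x : ℝ) ^ f.natDegree → ∀ c : ℤ, |c| ≤ B * N →
      ∀ r : ℕ, (r : ℝ) ≤ κ * Real.log (Real.log N) →
        tuples x r (fun v => (∀ i, 0 < c + f.eval (v i : ℤ) ∧ c + f.eval (v i : ℤ) ≤ N) ∧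
          ¬ Samples ε C K N r (fun i => (c + f.eval (v i : ℤ)).toNat)) ≤ x ^ r / Real.log N ^ U) := by
  obtain ⟨N₁, hN₁⟩ := ev_large κ
  have hres := ThinTranslates.result B (C + κ + 4) (U + 4) ε hε (by linarith)
  have hmonoK : ∀ {K K' N r : ℕ} {b : Fin r → ℕ}, K ≤ K' → 1 ≤ Real.log N →
      Samples ε C K N r b → Samples ε C K' N r b := by
    intro K K' N r b hK hN hs
    have hp : Real.log N ^ K ≤ Real.log N ^ K' := pow_le_pow_right₀ hN hK
    refine ⟨fun y hy1 hy2 => hs.1 y (hp.trans hy1) hy2, fun hr => le_trans ?_ (hs.2 hr)⟩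
    apply Nat.cast_le.2
    apply card_le_card
    intro a ha
    simp only [mem_filter] at ha ⊢
    obtain ⟨ha1, y, hy1, hy2, h⟩ := ha
    exact ⟨ha1, y, hp.trans hy1, hy2, h⟩
  have htmono : ∀ {x r : ℕ} {E F : (Fin r → ℕ) → Prop}, (∀ v, E v → F v) →
      tuples x r E ≤ tuples x r F := by
    intro x r E F h
    classical
    unfold tuples
    apply Nat.cast_le.2
    apply card_le_card
    intro v hv
    have hv' := mem_filter.1 hv
    exact mem_filter.2 ⟨hv'.1, h v hv'.2⟩
  refine ⟨fun p => ?_, fun f hd => ?_⟩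
  · obtain ⟨K, hK⟩ := hres.1 p
    refine ⟨K + 1 + N₁, fun N hN x s hs hE r hr => ?_⟩
    obtain ⟨hL8, hLκ⟩ := hN₁ N (by omega)
    have hE' : (energy p x s : ℝ) * N ≤ Real.log N ^ (C + κ + 4) * (x : ℝ) ^ (2 * p) := by
      refine hE.trans ?_
      have : Real.log N ^ C ≤ Real.log N ^ (C + κ + 4) :=
        pow_le_pow_right₀ (by linarith) (by omega)
      gcongr
    refine le_trans (htmono fun v hv => ⟨hv.1, fun hs' => hv.2 ?_⟩)
      (core C U κ K N x ε hε hε1 s hL8 hLκ (fun A hA hAN => hK N (by omega) x s hs hE' A hA hAN) r hr)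
    exact hmonoK (by omega) (by linarith) hs'
  · obtain ⟨K, hK⟩ := hres.2 f hd
    refine ⟨K + 1 + N₁, fun N hN x hx1 hx2 c hc r hr => ?_⟩
    obtain ⟨hL8, hLκ⟩ := hN₁ N (by omega)
    have hx2' : (N : ℝ) ≤ Real.log N ^ (C + κ + 4) * (x : ℝ) ^ f.natDegree := by
      refine hx2.trans ?_
      have : Real.log N ^ C ≤ Real.log N ^ (C + κ + 4) :=
        pow_le_pow_right₀ (by linarith) (by omega)
      gcongr
    refine le_trans (htmono fun v hv => ⟨hv.1, fun hs' => hv.2 ?_⟩)
      (core C U κ K N x ε hε hε1 (fun m => c + f.eval (m : ℤ)) hL8 hLκ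
        (fun A hA hAN => hK N (by omega) x hx1 hx2' c hc A hA hAN) r hr)
    exact hmonoK (by omega) (by linarith) hs'

end Pool.Agent.Results.MP_711652_nt.SampledTranslates
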